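import Mathlib
import Pool.Agent.H282RU.FinC
import Pool.Agent.H282RU.RL

set_option autoImplicit false

/-!
# Universality of the quadratic `L(s,χ)` without zeros in `(0,1)`

Let `K` be a compact subset of the strip `1/2 < Re s < 1`, symmetric with respect to the real axis
and with connected complement, and let `f` be continuous and zero-free on `K`, holomorphic in the
interior of `K`, real-symmetric, `f(s̄) = conj f(s)`, and positive at the real points of `K`. We show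
that a positive proportion of all primitive quadratic characters `χ` of given parity satisfy
`|L(s,χ) - f(s)| < ε` on all of `K` and have no zero of `L(s,χ)` on the segment `(0,1)`; the
characters can be asked to have prescribed signs at finitely many primes, and within a suitable
class given by finitely many more signs their proportion is at least every given number below
86.5 percent.
-/

namespace Pool.Agent.Results.MP_0016c7_nt.Universality

/-- The pairs `(N, χ)` with `1 ≤ N ≤ X` and `χ` a nontrivial primitive quadratic Dirichlet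
character modulo `N` such that `χ(-1) = s` and `χ(p) = c p` for all primes `p ≤ z`. -/
def Class (z : ℕ) (c : ℕ → ℤ) (s : ℤ) (X : ℕ) : Set (Σ N : ℕ, DirichletCharacter ℂ N) :=
  {p | p.1 ≠ 0 ∧ p.1 ≤ X ∧ p.2.IsPrimitive ∧ p.2 ^ 2 = 1 ∧ p.2 ≠ 1 ∧ p.2 (-1) = (s : ℂ) ∧
    ∀ q : ℕ, q.Prime → q ≤ z → p.2 (q : ZMod p.1) = (c q : ℂ)}

/-- `L(σ,χ)` is real and positive for every real `σ` with `0 < σ < 1`, and
`|L(s,χ) - f(s)| < ε` for every `s` in `K`. -/
def Good (K : Set ℂ) (f : ℂ → ℂ) (ε : ℝ) (p : Σ N : ℕ, DirichletCharacter ℂ N) : Prop :=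
  ∃ _ : NeZero p.1,
    (∀ σ : ℝ, 0 < σ → σ < 1 →
      (DirichletCharacter.LFunction p.2 (σ : ℂ)).im = 0 ∧
      0 < (DirichletCharacter.LFunction p.2 (σ : ℂ)).re) ∧
    ∀ s ∈ K, ‖DirichletCharacter.LFunction p.2 s - f s‖ < ε

/-- `K` is a compact subset of the strip `1/2 < Re s < 1`, symmetric with respect to the real axis,
with connected complement; `f` is continuous and zero-free on `K`, holomorphic in the interior of
`K`, satisfies `f(s̄) = conj f(s)` on `K` and is positive at the real points of `K`. -/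
structure Admissible (K : Set ℂ) (f : ℂ → ℂ) : Prop where
  compact : IsCompact K
  strip : ∀ s ∈ K, 1 / 2 < s.re ∧ s.re < 1
  compl_connected : IsConnected Kᶜ
  symm : ∀ s ∈ K, (starRingEnd ℂ) s ∈ K
  cont : ContinuousOn f K
  hol : DifferentiableOn ℂ f (interior K)
  nonzero : ∀ s ∈ K, f s ≠ 0
  real : ∀ s ∈ K, f ((starRingEnd ℂ) s) = (starRingEnd ℂ) (f s)
  pos : ∀ s ∈ K, s.im = 0 → 0 < (f s).re

/-- **Theorem.** Let `(K, f)` be admissible, `ε > 0`, `θ < 0.865`, `s ∈ {1, -1}`, and let signs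
`c0 p` for the primes `p ≤ y` be given. Then there are `z ≥ y` and signs `c p` for the primes
`p ≤ z`, equal to `c0 p` for `p ≤ y`, such that the class of the primitive quadratic characters `χ`
with `χ(-1) = s` and `χ(p) = c p` for all primes `p ≤ z` has at least `κ X` members of conductor at
most `X`, with some `κ > 0`, and for all large `X` the proportion of those among them which satisfy
`L(σ,χ) > 0` for all `0 < σ < 1` and `|L(s,χ) - f(s)| < ε` for all `s ∈ K` is at least `θ`. -/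
theorem result (K : Set ℂ) (f : ℂ → ℂ) (hK : Admissible K f) (ε : ℝ) (hε : 0 < ε)
    (θ : ℝ) (hθ : θ < 865 / 1000) (s : ℤ) (hs : s = 1 ∨ s = -1)
    (y : ℕ) (c0 : ℕ → ℤ) (hc0 : ∀ p, c0 p = 1 ∨ c0 p = -1) :
    ∃ (z : ℕ) (c : ℕ → ℤ), y ≤ z ∧ (∀ p, c p = 1 ∨ c p = -1) ∧ (∀ p, p ≤ y → c p = c0 p) ∧
      (∀ X : ℕ, (Class z c s X).Finite) ∧
      (∃ κ : ℝ, 0 < κ ∧ ∃ X0 : ℕ, ∀ X : ℕ, X0 ≤ X →
        κ * (X : ℝ) ≤ ((Class z c s X).ncard : ℝ)) ∧
      (∃ X0 : ℕ, ∀ X : ℕ, X0 ≤ X →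
        θ * ((Class z c s X).ncard : ℝ) ≤
          ((Class z c s X ∩ {p | Good K f ε p}).ncard : ℝ)) := by
  classical
  obtain ⟨h, hh1, hh2, hh3, hh4⟩ := Pool.Agent.H282RU.real_log hK.compact hK.compl_connected
    hK.symm f hK.cont hK.hol hK.nonzero hK.real hK.pos (ε / 2) (half_pos hε)
  obtain ⟨z, c, hz, hc, hcc, N, hN⟩ := Pool.Agent.H282RU.mainC Pool.Agent.H282RU.s_E1
    Pool.Agent.H282RU.s_E2 Pool.Agent.H282RU.s_E3 Pool.Agent.H282RU.s_E5 Pool.Agent.H282RU.s_E6
    K hK.compact hK.strip hK.compl_connected hK.symm h hh1 hh2 hh3 (ε / 2) (half_pos hε) s y c0 hc0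
    θ hθ
  have hS : ∀ p ∈ Pool.Agent.H282RU.PR 1 z, p.Prime := fun p hp => (Finset.mem_filter.1 hp).2
  obtain ⟨h1, ⟨κ, N1, hκ, h2⟩, -⟩ := Pool.Agent.W161.LF.mainA (Pool.Agent.H282RU.PR 1 z) hS c
    (fun p _ => Or.inr (hc p)) s hs
  have e1 : ∀ X : ℕ, Class z c s X = Pool.Agent.H306R2.RG.LnkC.RPC ∩
      (Pool.Agent.W161.LF.CL (Pool.Agent.H282RU.PR 1 z) c s ∩ {p | p.1 ≤ X}) := by
    intro X
    ext p
    simp only [Class, Pool.Agent.H306R2.RG.LnkC.RPC, Pool.Agent.W161.LF.CL, Set.mem_inter_iff,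
      Set.mem_ofPred_eq, Pool.Agent.H282RU.mem_PR1]
    constructor
    · rintro ⟨h1, h2, h3, h4, h5, h6, h7⟩
      exact ⟨⟨h1, h3, h4, h5⟩, ⟨h6, fun q hq => h7 q hq.1 hq.2⟩, h2⟩
    · rintro ⟨⟨h1, h3, h4, h5⟩, ⟨h6, h7⟩, h2⟩
      exact ⟨h1, h2, h3, h4, h5, h6, fun q hq hq' => h7 q ⟨hq, hq'⟩⟩
  have hgood : ∀ p : Σ N : ℕ, DirichletCharacter ℂ N,
      (Pool.Agent.H306R2.RG.LnkC.POS p ∧ Pool.Agent.H282RU.APC K h (ε / 2) p) → Good K f ε p := by
    rintro p ⟨⟨h', h1⟩, ⟨h'', h2⟩⟩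
    refine ⟨h', h1, fun w hw => ?_⟩
    have h3 := norm_add_le (DirichletCharacter.LFunction p.2 w - Complex.exp (h w))
      (Complex.exp (h w) - f w)
    rw [sub_add_sub_cancel] at h3
    have h4 := h2 w hw
    have h5 := hh4 w hw
    linarith
  refine ⟨z, c, hz, hc, hcc, fun X => ?_, ⟨κ, hκ, N1, fun X hX => ?_⟩, ⟨N, fun X hX => ?_⟩⟩
  · rw [e1]
    exact h1 X
  · rw [e1]
    exact h2 X hX
  · refine (le_of_eq ?_).trans ((hN X hX).trans ?_)
    · rw [e1]
    · refine Nat.cast_le.2 (Set.ncard_le_ncard ?_ ?_)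
      · rintro p ⟨hp1, hp2, hp3⟩
        refine ⟨?_, hgood p hp3⟩
        rw [e1]
        exact ⟨hp1, hp2⟩
      · refine Set.Finite.subset ?_ Set.inter_subset_left
        rw [e1]
        exact h1 X

end Pool.Agent.Results.MP_0016c7_nt.Universality
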