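import Mathlib
import Pool.Agent.Hp428.QH.DerFam
import Pool.Agent.W930.RT.Nq
import Pool.Agent.W723.RT.CG
import Pool.Agent.W215.RT.Kc
import Pool.Agent.W723.RT.ID
import Pool.Agent.W461.RT.Cm
import Pool.Agent.W469.RT.Jen
import Pool.Agent.W469.RT.Sup
import Pool.Agent.W333.RT.Zb
import Pool.Agent.W973.QP.TG
import Pool.Agent.W215.QP.Fe
import Pool.Agent.W305.QP.Rel
import Pool.Agent.W372.QP.Cnt
import Pool.Agent.H423R2.RGL.FGF
import Pool.Agent.H423R2.RGL.CGF
import Pool.Agent.H423R2.RGL.DEN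
import Pool.Agent.H423R2.RGL.GRW

set_option autoImplicit false

/-!
# Spacing of the low zeros of the derivatives of completed quadratic Dirichlet L-functions

`Λ_χ(s) = N^(s/2) Λ(s, χ)` is the completed L-function of a real primitive character `χ` modulo `N`; it is
entire, real on the real axis and symmetric about `1/2`. The question about the real zeros of `Λ_χ` is the
case `n = 0` of the question about the zeros of the `n`-th derivative near the central point.

For all but a proportion `C exp (-c R)` of the real primitive characters of conductor `N ≤ X`, for all `n`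
with `R ≤ n ≤ δ log X`, the zeros of the `n`-th derivative of `Λ_χ` near the central point are equally
spaced on the critical line, the distance of two consecutive ones being `(2 π + O(ε)) / log N`, and for even
`n` the lowest zero is at the height `(π + O(ε)) / log N`: a bounded number of steps `R` of differentiation
brings the low zeros of almost all quadratic L-functions into an arithmetic progression. The statement is
unconditional.
-/

namespace Pool.Agent.Results.MP_0016c7_nt.QuadraticDerivativeSpacing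

open Complex

/-- The pairs `(N, χ)`, `1 ≤ N ≤ X`, with `χ` a nontrivial primitive quadratic Dirichlet character
modulo `N`. -/
def Quadratic (X : ℕ) : Set (Σ N : ℕ, DirichletCharacter ℂ N) :=
  {p | (p.1 ≠ 0 ∧ p.2.IsPrimitive ∧ p.2 ^ 2 = 1 ∧ p.2 ≠ 1) ∧ p.1 ≤ X}

/-- The completed L-function `Λ_χ(s) = N^(s/2) Λ(s, χ)`. -/
noncomputable def Lam {N : ℕ} [NeZero N] (χ : DirichletCharacter ℂ N) (s : ℂ) : ℂ :=
  (N : ℂ) ^ (s / 2) * DirichletCharacter.completedLFunction χ s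

/-- There is `γ > 0` with `|γ ℓ - π| ≤ ε` such that `1/2 + i γ` is a zero of the `n`-th derivative of
`M`, and the `n`-th derivative has no zero with `|Re s - 1/2| ≤ δ`, `|Im s| < γ`. -/
def LowestZero (δ ε ℓ : ℝ) (n : ℕ) (M : ℂ → ℂ) : Prop :=
  ∃ γ : ℝ, 0 < γ ∧ |γ * ℓ - Real.pi| ≤ ε ∧ iteratedDeriv n M (1 / 2 + γ * I) = 0 ∧
    ∀ z : ℂ, |z.re - 1 / 2| ≤ δ → |z.im| < γ → iteratedDeriv n M z ≠ 0

/-- The zero `s` of the `n`-th derivative of `M` is simple and on the line `Re s = 1/2`; there is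
`g > 0` with `|g ℓ / 2 - π| ≤ ε` such that `s + i g` is again a simple zero of the `n`-th derivative; and
`s`, `s + i g` are its only zeros `z` with `|Re z - 1/2| ≤ δ` and `Im s ≤ Im z ≤ Im s + g`. -/
def Regular (δ ε ℓ : ℝ) (n : ℕ) (M : ℂ → ℂ) (s : ℂ) : Prop :=
  s.re = 1 / 2 ∧ iteratedDeriv (n + 1) M s ≠ 0 ∧ ∃ g : ℝ, 0 < g ∧ |g * (ℓ / 2) - Real.pi| ≤ ε ∧
    iteratedDeriv n M (s + g * I) = 0 ∧ iteratedDeriv (n + 1) M (s + g * I) ≠ 0 ∧
    ∀ z : ℂ, |z.re - 1 / 2| ≤ δ → iteratedDeriv n M z = 0 → s.im ≤ z.im → z.im ≤ s.im + g →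
      z = s ∨ z = s + g * I

/-- For all `n` with `R ≤ n ≤ δ log X`: if `n` is even, the lowest zero of the `n`-th derivative of
`Λ_χ` is at the height `(π + O(ε)) / log N`; and every zero `s` of the `n`-th derivative with
`|Re s - 1/2| ≤ δ` and `|Im s| ≤ δ n / log X` is regular, with distance `(2 π + O(ε)) / log N` to the
next zero. -/
def DerivGood (δ ε : ℝ) (X : ℕ) (R : ℝ) (p : Σ N : ℕ, DirichletCharacter ℂ N) : Prop :=
  ∃ _ : NeZero p.1, ∀ n : ℕ, R ≤ n → (n : ℝ) ≤ δ * Real.log X →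
    (Even n → LowestZero δ ε (Real.log p.1) n (Lam p.2)) ∧
    ∀ s : ℂ, |s.re - 1 / 2| ≤ δ → |s.im| ≤ δ * n / Real.log X → iteratedDeriv n (Lam p.2) s = 0 →
      Regular δ ε (Real.log p.1) n (Lam p.2) s

open Pool.Agent.H306R2.RZ Pool.Agent.H306R2.RG

/-- **Theorem.** For every `ε > 0` there are `C, c, δ > 0` such that for all `X ≥ 2` and all `R ≥ 0`,
all but a proportion `C exp (- c R)` of the real primitive characters `χ` of conductor `N ≤ X` have the
following property: for all `n` with `R ≤ n ≤ δ log X`, all zeros of the `n`-th derivative of `Λ_χ` with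
`|Re s - 1/2| ≤ δ`, `|Im s| ≤ δ n / log X` are simple, on the critical line and equally spaced, with
distances `g`, `|g (log N) / 2 - π| ≤ ε`, and for even `n` the lowest zero is at a height `γ` with
`|γ log N - π| ≤ ε`. -/
theorem result (ε : ℝ) (hε : 0 < ε) : ∃ C c δ : ℝ, 0 < C ∧ 0 < c ∧ 0 < δ ∧ ∀ (X : ℕ) (R : ℝ), 2 ≤ X →
    0 ≤ R → (Quadratic X).Finite ∧
      ((Quadratic X ∩ {p | ¬ DerivGood δ ε X R p}).ncard : ℝ) ≤
        C * Real.exp (-(c * R)) * ((Quadratic X).ncard : ℝ) := by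
  obtain ⟨-, hG⟩ := LnkD.GRW LnkC.CGF (LnkC.DEN (F8 1) ⟨1, Or.inl rfl, Or.inl rfl⟩)
  have hZB := Pool.Agent.W333.RT.zb
    (Pool.Agent.W469.RT.Sup.sup_of Pool.Agent.W461.RT.cm Pool.Agent.W723.RT.id_of)
    Pool.Agent.W973.QP.tg Pool.Agent.W469.RT.Jen.jen Pool.Agent.W723.RT.id_of LnkA.FGF LnkC.CGF
    Pool.Agent.W215.QP.fe Pool.Agent.W305.QP.rel
  have hNQ := Pool.Agent.W930.RT.nq Pool.Agent.W461.RT.cm Pool.Agent.W723.RT.cg
    Pool.Agent.W215.RT.kc Pool.Agent.W973.QP.tg Pool.Agent.W723.RT.id_of LnkA.FGF LnkC.CGF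
  obtain ⟨C, c, δ, hC, hc, hδ, h⟩ := Pool.Agent.Hp428.QH.main_derS Pool.Agent.W372.QP.cnt_sum hZB hNQ
    Pool.Agent.W723.RT.id_of Pool.Agent.W215.QP.fe Pool.Agent.W305.QP.rel LnkA.FGF LnkC.CGF hG hε
  refine ⟨C, c, δ, hC, hc, hδ, fun X R hX hR => ?_⟩
  obtain ⟨h1, h2⟩ := h X R hX hR
  refine ⟨h1, le_trans ?_ h2⟩
  have hsub : (Quadratic X ∩ {p | ¬ DerivGood δ ε X R p}) ⊆
      ((LnkC.RPC ∩ {p | p.1 ≤ X}) ∩ {p | ¬ Pool.Agent.Hp428.QH.DG δ ε X R p}) := by
    rintro p ⟨hp1, hp2⟩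
    exact ⟨hp1, fun hp3 => hp2 hp3⟩
  exact_mod_cast Set.ncard_le_ncard hsub (h1.subset Set.inter_subset_left)

end Pool.Agent.Results.MP_0016c7_nt.QuadraticDerivativeSpacing
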