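import Mathlib
import Pool.Agent.Hp428.QH.Fam
import Pool.Agent.W930.RT.Nq
import Pool.Agent.W723.RT.CG
import Pool.Agent.W215.RT.Kc
import Pool.Agent.W723.RT.ID
import Pool.Agent.W461.RT.Cm
import Pool.Agent.W469.RT.Jen
import Pool.Agent.W469.RT.Sup
import Pool.Agent.W333.RT.Zb
import Pool.Agent.W973.QP.TG
import Pool.Agent.W215.QP.Fe
import Pool.Agent.W305.QP.Rel
import Pool.Agent.W372.QP.Cnt
import Pool.Agent.H423R2.RGL.FGF
import Pool.Agent.H423R2.RGL.CGF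
import Pool.Agent.H423R2.RGL.DEN
import Pool.Agent.H423R2.RGL.GRW

set_option autoImplicit false

/-!
# Zeros of the heat flow of completed quadratic Dirichlet L-functions near the central point

`Λ_χ(s) = N^(s/2) Λ(s, χ)` is the completed L-function of a real primitive character `χ` modulo `N`; it is
entire, real on the real axis and symmetric about `1/2`. Its heat flow at time `t > 0` is
`H_t(s) = π^(-1/2) ∫ exp (-v²) Λ_χ(s + 2 √t v) dv`, that is `exp (t D²) Λ_χ` with `D = d/ds`; `H_0 = Λ_χ`,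
and the question about real zeros concerns `t = 0`.

For all but a proportion `C exp (-c R)` of the real primitive characters of conductor `N ≤ X`, at all times
`R / (log X)² ≤ t ≤ δ / log X`, the zeros of `H_t` near the central point are simple, on the critical line
and equally spaced, and they stay away from the real axis: the lowest zero is at the height
`(π + O(ε)) / log N`. The statement is unconditional.
-/

namespace Pool.Agent.Results.MP_0016c7_nt.QuadraticHeatFlow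

open Complex

/-- The pairs `(N, χ)`, `1 ≤ N ≤ X`, with `χ` a nontrivial primitive quadratic Dirichlet character
modulo `N`. -/
def Quadratic (X : ℕ) : Set (Σ N : ℕ, DirichletCharacter ℂ N) :=
  {p | (p.1 ≠ 0 ∧ p.2.IsPrimitive ∧ p.2 ^ 2 = 1 ∧ p.2 ≠ 1) ∧ p.1 ≤ X}

/-- The completed L-function `Λ_χ(s) = N^(s/2) Λ(s, χ)`. -/
noncomputable def Lam {N : ℕ} [NeZero N] (χ : DirichletCharacter ℂ N) (s : ℂ) : ℂ :=
  (N : ℂ) ^ (s / 2) * DirichletCharacter.completedLFunction χ s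

/-- The heat flow `exp (t D²) M`, `D = d/ds`, at time `t ≥ 0`, as a Gaussian average:
`π^(-1/2) ∫ exp (-v²) M(s + 2 √t v) dv`. -/
noncomputable def heatFlow (t : ℝ) (M : ℂ → ℂ) (s : ℂ) : ℂ :=
  ((1 / Real.sqrt Real.pi : ℝ) : ℂ) *
    ∫ v : ℝ, ((Real.exp (-v ^ 2) : ℝ) : ℂ) * M (s + ((2 * Real.sqrt t * v : ℝ) : ℂ))

/-- There is `γ > 0` with `|γ ℓ - π| ≤ ε` such that `1/2 + i γ` is a zero of `H`, and `H` has no zero
with `|Re s - 1/2| ≤ δ`, `|Im s| < γ`. -/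
def LowestZero (δ ε ℓ : ℝ) (H : ℂ → ℂ) : Prop :=
  ∃ γ : ℝ, 0 < γ ∧ |γ * ℓ - Real.pi| ≤ ε ∧ H (1 / 2 + γ * I) = 0 ∧
    ∀ z : ℂ, |z.re - 1 / 2| ≤ δ → |z.im| < γ → H z ≠ 0

/-- The zero `s` of `H` is simple and on the line `Re s = 1/2`; there is `g > 0` with
`|g ℓ / 2 - π| ≤ ε` such that `s + i g` is again a simple zero of `H`; and `s`, `s + i g` are the only
zeros `z` of `H` with `|Re z - 1/2| ≤ δ` and `Im s ≤ Im z ≤ Im s + g`. -/
def Regular (δ ε ℓ : ℝ) (H : ℂ → ℂ) (s : ℂ) : Prop :=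
  s.re = 1 / 2 ∧ deriv H s ≠ 0 ∧ ∃ g : ℝ, 0 < g ∧ |g * (ℓ / 2) - Real.pi| ≤ ε ∧
    H (s + g * I) = 0 ∧ deriv H (s + g * I) ≠ 0 ∧
    ∀ z : ℂ, |z.re - 1 / 2| ≤ δ → H z = 0 → s.im ≤ z.im → z.im ≤ s.im + g → z = s ∨ z = s + g * I

/-- For all times `t` with `R / (log X)² ≤ t ≤ δ / log X`: the lowest zero of `H_t`, the heat flow of
`Λ_χ`, is at the height `(π + O(ε)) / log N`, and every zero `s` of `H_t` with `|Re s - 1/2| ≤ δ` and
`|Im s| ≤ δ t log X` is regular, with distance `(2 π + O(ε)) / log N` to the next zero. -/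
def HeatGood (δ ε : ℝ) (X : ℕ) (R : ℝ) (p : Σ N : ℕ, DirichletCharacter ℂ N) : Prop :=
  ∃ _ : NeZero p.1, ∀ t : ℝ, 0 < t → R ≤ t * Real.log X ^ 2 → t * Real.log X ≤ δ →
    LowestZero δ ε (Real.log p.1) (heatFlow t (Lam p.2)) ∧
    ∀ s : ℂ, |s.re - 1 / 2| ≤ δ → |s.im| ≤ δ * (t * Real.log X) → heatFlow t (Lam p.2) s = 0 →
      Regular δ ε (Real.log p.1) (heatFlow t (Lam p.2)) s

open Pool.Agent.H306R2.RZ Pool.Agent.H306R2.RG

/-- **Theorem.** For every `ε > 0` there are `C, c, δ > 0` such that for all `X ≥ 2` and all `R ≥ 0`,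
all but a proportion `C exp (- c R)` of the real primitive characters `χ` of conductor `N ≤ X` have the
following property: for all `t` with `R ≤ t (log X)²` and `t log X ≤ δ`, the heat flow `H_t` of `Λ_χ`
has its lowest zero on the critical line at a height `γ` with `|γ log N - π| ≤ ε`, it has no zero with
`|Re s - 1/2| ≤ δ`, `|Im s| < γ` (in particular no real zero there), and all its zeros with
`|Re s - 1/2| ≤ δ`, `|Im s| ≤ δ t log X` are simple, on the critical line and equally spaced, with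
distances `g`, `|g (log N) / 2 - π| ≤ ε`. -/
theorem result (ε : ℝ) (hε : 0 < ε) : ∃ C c δ : ℝ, 0 < C ∧ 0 < c ∧ 0 < δ ∧ ∀ (X : ℕ) (R : ℝ), 2 ≤ X →
    0 ≤ R → (Quadratic X).Finite ∧
      ((Quadratic X ∩ {p | ¬ HeatGood δ ε X R p}).ncard : ℝ) ≤
        C * Real.exp (-(c * R)) * ((Quadratic X).ncard : ℝ) := by
  obtain ⟨-, hG⟩ := LnkD.GRW LnkC.CGF (LnkC.DEN (F8 1) ⟨1, Or.inl rfl, Or.inl rfl⟩)
  have hZB := Pool.Agent.W333.RT.zb
    (Pool.Agent.W469.RT.Sup.sup_of Pool.Agent.W461.RT.cm Pool.Agent.W723.RT.id_of)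
    Pool.Agent.W973.QP.tg Pool.Agent.W469.RT.Jen.jen Pool.Agent.W723.RT.id_of LnkA.FGF LnkC.CGF
    Pool.Agent.W215.QP.fe Pool.Agent.W305.QP.rel
  have hNQ := Pool.Agent.W930.RT.nq Pool.Agent.W461.RT.cm Pool.Agent.W723.RT.cg
    Pool.Agent.W215.RT.kc Pool.Agent.W973.QP.tg Pool.Agent.W723.RT.id_of LnkA.FGF LnkC.CGF
  obtain ⟨C, c, δ, hC, hc, hδ, h⟩ := Pool.Agent.Hp428.QH.main_heat Pool.Agent.W372.QP.cnt_sum hZB hNQ
    Pool.Agent.W723.RT.id_of Pool.Agent.W215.QP.fe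
    Pool.Agent.W305.QP.rel LnkA.FGF LnkC.CGF hG hε
  refine ⟨C, c, δ, hC, hc, hδ, fun X R hX hR => ?_⟩
  obtain ⟨h1, h2⟩ := h X R hX hR
  refine ⟨h1, le_trans ?_ h2⟩
  have hsub : (Quadratic X ∩ {p | ¬ HeatGood δ ε X R p}) ⊆
      ((LnkC.RPC ∩ {p | p.1 ≤ X}) ∩ {p | ¬ Pool.Agent.Hp428.QH.HG δ ε X R p}) := by
    rintro p ⟨hp1, hp2⟩
    refine ⟨hp1, fun hp3 => hp2 ?_⟩
    obtain ⟨hN, hp3⟩ := hp3
    refine ⟨hN, fun t ht h1 h2 => ?_⟩
    obtain ⟨a1, -, a3⟩ := hp3 t ht h1 h2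
    exact ⟨a1, a3⟩
  exact_mod_cast Set.ncard_le_ncard hsub (h1.subset Set.inter_subset_left)

end Pool.Agent.Results.MP_0016c7_nt.QuadraticHeatFlow
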