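import Mathlib
import Pool.Agent.Hp428.QH.ShFam
import Pool.Agent.W930.RT.Nq
import Pool.Agent.W723.RT.CG
import Pool.Agent.W215.RT.Kc
import Pool.Agent.W723.RT.ID
import Pool.Agent.W461.RT.Cm
import Pool.Agent.W469.RT.Jen
import Pool.Agent.W469.RT.Sup
import Pool.Agent.W333.RT.Zb
import Pool.Agent.W973.QP.TG
import Pool.Agent.W215.QP.Fe
import Pool.Agent.W305.QP.Rel
import Pool.Agent.W372.QP.Cnt
import Pool.Agent.H423R2.RGL.FGF
import Pool.Agent.H423R2.RGL.CGF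
import Pool.Agent.H423R2.RGL.DEN
import Pool.Agent.H423R2.RGL.GRW

set_option autoImplicit false

/-!
# Low zeros of sums and differences of two real shifts of completed quadratic Dirichlet L-functions

`Λ_χ(s) = N^(s/2) Λ(s, χ)` is the completed L-function of a real primitive character `χ` modulo `N`; it is
entire, real on the real axis and symmetric about `1/2`. Its shift sums are
`Λ_χ(s + b) + Λ_χ(s - b)` and `Λ_χ(s + b) - Λ_χ(s - b)`, `b > 0`. The difference divided by `2 b` tends to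
`Λ_χ'` and half the sum tends to `Λ_χ`, as `b → 0`. For `b ≥ 1/2` all zeros of both are on the critical
line, by the zero-free half-plane of `Λ_χ`; the question about the real zeros of `Λ_χ` is the case `b = 0`.

For all but a proportion `C exp (-c R)` of the real primitive characters of conductor `N ≤ X`, for all
shifts `R / log X ≤ b ≤ δ`, the zeros of both functions at heights up to `b / 2`, in the strip
`|Re s - 1/2| ≤ 1/10`, are simple, on the critical line and equally spaced, and the zeros of the sum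
`Λ_χ(s + b) + Λ_χ(s - b)` stay away from the real axis: the lowest one is at the height
`(π + O(ε)) / log N`. The statement is unconditional.
-/

namespace Pool.Agent.Results.MP_0016c7_nt.QuadraticShiftSums

open Complex

/-- The pairs `(N, χ)`, `1 ≤ N ≤ X`, with `χ` a nontrivial primitive quadratic Dirichlet character
modulo `N`. -/
def Quadratic (X : ℕ) : Set (Σ N : ℕ, DirichletCharacter ℂ N) :=
  {p | (p.1 ≠ 0 ∧ p.2.IsPrimitive ∧ p.2 ^ 2 = 1 ∧ p.2 ≠ 1) ∧ p.1 ≤ X}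

/-- The completed L-function `Λ_χ(s) = N^(s/2) Λ(s, χ)`. -/
noncomputable def Lam {N : ℕ} [NeZero N] (χ : DirichletCharacter ℂ N) (s : ℂ) : ℂ :=
  (N : ℂ) ^ (s / 2) * DirichletCharacter.completedLFunction χ s

/-- The function `M(s + b) + σ M(s - b)`; the sign `σ` is `1` or `-1` below. -/
noncomputable def shiftSum (σ b : ℝ) (M : ℂ → ℂ) (s : ℂ) : ℂ := M (s + b) + σ * M (s - b)

/-- There is `γ > 0` with `|γ ℓ - π| ≤ ε` such that `1/2 + i γ` is a zero of `H`, and `H` has no zero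
with `|Re s - 1/2| ≤ 1/10`, `|Im s| < γ`. -/
def LowestZero (ε ℓ : ℝ) (H : ℂ → ℂ) : Prop :=
  ∃ γ : ℝ, 0 < γ ∧ |γ * ℓ - Real.pi| ≤ ε ∧ H (1 / 2 + γ * I) = 0 ∧
    ∀ z : ℂ, |z.re - 1 / 2| ≤ 1 / 10 → |z.im| < γ → H z ≠ 0

/-- The zero `s` of `H` is simple and on the line `Re s = 1/2`; there is `g > 0` with
`|g ℓ / 2 - π| ≤ ε` such that `s + i g` is again a simple zero of `H`; and `s`, `s + i g` are the only
zeros `z` of `H` with `|Re z - 1/2| ≤ 1/10` and `Im s ≤ Im z ≤ Im s + g`. -/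
def Regular (ε ℓ : ℝ) (H : ℂ → ℂ) (s : ℂ) : Prop :=
  s.re = 1 / 2 ∧ deriv H s ≠ 0 ∧ ∃ g : ℝ, 0 < g ∧ |g * (ℓ / 2) - Real.pi| ≤ ε ∧
    H (s + g * I) = 0 ∧ deriv H (s + g * I) ≠ 0 ∧
    ∀ z : ℂ, |z.re - 1 / 2| ≤ 1 / 10 → H z = 0 → s.im ≤ z.im → z.im ≤ s.im + g → z = s ∨ z = s + g * I

/-- For all shifts `b` with `R / log X ≤ b ≤ δ` and both signs `σ = 1` and `σ = -1`: if `σ = 1`, the
lowest zero of `Λ_χ(s + b) + Λ_χ(s - b)` is at the height `(π + O(ε)) / log N`; and every zero `s` of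
`Λ_χ(s + b) + σ Λ_χ(s - b)` with `|Re s - 1/2| ≤ 1/10` and `|Im s| ≤ b / 2` is regular, with distance
`(2 π + O(ε)) / log N` to the next zero. -/
def ShiftGood (δ ε : ℝ) (X : ℕ) (R : ℝ) (p : Σ N : ℕ, DirichletCharacter ℂ N) : Prop :=
  ∃ _ : NeZero p.1, ∀ b σ : ℝ, (σ = 1 ∨ σ = -1) → R ≤ b * Real.log X → b ≤ δ →
    (σ = 1 → LowestZero ε (Real.log p.1) (shiftSum σ b (Lam p.2))) ∧
    ∀ s : ℂ, |s.re - 1 / 2| ≤ 1 / 10 → |s.im| ≤ b / 2 → shiftSum σ b (Lam p.2) s = 0 →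
      Regular ε (Real.log p.1) (shiftSum σ b (Lam p.2)) s

open Pool.Agent.H306R2.RZ Pool.Agent.H306R2.RG

/-- **Theorem.** For every `ε > 0` there are `C, c, δ > 0` such that for all `X ≥ 2` and all `R ≥ 0`,
all but a proportion `C exp (- c R)` of the real primitive characters `χ` of conductor `N ≤ X` have the
following property: for all shifts `b` with `R / log X ≤ b ≤ δ`, the sum `Λ_χ(s + b) + Λ_χ(s - b)` has
its lowest zero on the critical line at a height `γ` with `|γ log N - π| ≤ ε` and no zero with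
`|Re s - 1/2| ≤ 1/10`, `|Im s| < γ` (in particular no real zero there), and all zeros of the sum and of
the difference `Λ_χ(s + b) - Λ_χ(s - b)` with `|Re s - 1/2| ≤ 1/10`, `|Im s| ≤ b / 2` are simple, on the
critical line and equally spaced, with distances `g`, `|g (log N) / 2 - π| ≤ ε`. -/
theorem result (ε : ℝ) (hε : 0 < ε) : ∃ C c δ : ℝ, 0 < C ∧ 0 < c ∧ 0 < δ ∧ ∀ (X : ℕ) (R : ℝ), 2 ≤ X →
    0 ≤ R → (Quadratic X).Finite ∧
      ((Quadratic X ∩ {p | ¬ ShiftGood δ ε X R p}).ncard : ℝ) ≤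
        C * Real.exp (-(c * R)) * ((Quadratic X).ncard : ℝ) := by
  obtain ⟨-, hG⟩ := LnkD.GRW LnkC.CGF (LnkC.DEN (F8 1) ⟨1, Or.inl rfl, Or.inl rfl⟩)
  have hZB := Pool.Agent.W333.RT.zb
    (Pool.Agent.W469.RT.Sup.sup_of Pool.Agent.W461.RT.cm Pool.Agent.W723.RT.id_of)
    Pool.Agent.W973.QP.tg Pool.Agent.W469.RT.Jen.jen Pool.Agent.W723.RT.id_of LnkA.FGF LnkC.CGF
    Pool.Agent.W215.QP.fe Pool.Agent.W305.QP.rel
  have hNQ := Pool.Agent.W930.RT.nq Pool.Agent.W461.RT.cm Pool.Agent.W723.RT.cg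
    Pool.Agent.W215.RT.kc Pool.Agent.W973.QP.tg Pool.Agent.W723.RT.id_of LnkA.FGF LnkC.CGF
  obtain ⟨C, c, δ, hC, hc, hδ, h⟩ := Pool.Agent.Hp428.QH.main_shift Pool.Agent.W372.QP.cnt_sum hZB hNQ
    Pool.Agent.W723.RT.id_of LnkA.FGF LnkC.CGF hG hε
  refine ⟨C, c, δ, hC, hc, hδ, fun X R hX hR => ?_⟩
  obtain ⟨h1, h2⟩ := h X R hX hR
  refine ⟨h1, le_trans ?_ h2⟩
  have hsub : (Quadratic X ∩ {p | ¬ ShiftGood δ ε X R p}) ⊆
      ((LnkC.RPC ∩ {p | p.1 ≤ X}) ∩ {p | ¬ Pool.Agent.Hp428.QH.SG δ ε X R p}) := by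
    rintro p ⟨hp1, hp2⟩
    exact ⟨hp1, fun hp3 => hp2 hp3⟩
  exact_mod_cast Set.ncard_le_ncard hsub (h1.subset Set.inter_subset_left)

end Pool.Agent.Results.MP_0016c7_nt.QuadraticShiftSums
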